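import Mathlib
import Pool.Agent.H4.VB1

set_option maxHeartbeats 400000

open Finset Filter Topology

namespace Pool.Agent.Results.MP_814f17_an.Yes

open Pool.Agent.H4.VB1

/-- The bivariate Bernstein polynomial on the simplex at complex arguments. -/
noncomputable def bern (n : ℕ) (f : ℂ → ℂ → ℂ) (u v : ℂ) : ℂ :=
  ∑ k ∈ range (n + 1), ∑ j ∈ range (n + 1 - k),
    (n.factorial : ℂ) / ((k.factorial : ℂ) * (j.factorial : ℂ) * ((n - k - j).factorial : ℂ)) *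
      u ^ k * v ^ j * (1 - u - v) ^ (n - k - j) * f (k / n) (j / n)

/-- Complex partial derivative in the first variable. -/
noncomputable def d1 (f : ℂ → ℂ → ℂ) (u v : ℂ) : ℂ := deriv (fun x => f x v) u

/-- Complex partial derivative in the second variable. -/
noncomputable def d2 (f : ℂ → ℂ → ℂ) (u v : ℂ) : ℂ := deriv (fun y => f u y) v

/-- The remainder `E_n(f)`. -/
noncomputable def rem (n : ℕ) (f : ℂ → ℂ → ℂ) (u v : ℂ) : ℂ :=
  bern n f u v - f u v - 1 / (2 * n) *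
    (u * (1 - u) * d1 (d1 f) u v - 2 * u * v * d2 (d1 f) u v + v * (1 - v) * d2 (d2 f) u v)

theorem hasSum_der {ι : Type*} (b : ι → ℂ) (e : ι → ℕ) (g : ℂ → ℂ) (R : ℝ)
    (h : ∀ u : ℂ, ‖u‖ < R → HasSum (fun i => b i * u ^ e i) (g u)) {u : ℂ} (hu : ‖u‖ < R) :
    HasSum (fun i => b i * e i * u ^ (e i - 1)) (deriv g u) := by
  obtain ⟨r, hr1, hr2⟩ := exists_between hu
  have hr0 : 0 ≤ r := (norm_nonneg u).trans hr1.le
  have hs : Summable fun i => ‖b i * (r : ℂ) ^ e i‖ :=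
    (h r (by rw [Complex.norm_real, Real.norm_eq_abs, abs_of_nonneg hr0]; exact hr2)).summable.norm
  have key := Complex.hasSum_deriv_of_summable_norm (F := fun i w => b i * w ^ e i)
    (U := Metric.ball 0 r) hs (fun i => by fun_prop) Metric.isOpen_ball (fun i w hw => by
      rw [norm_mul, norm_mul, norm_pow, norm_pow, Complex.norm_real, Real.norm_eq_abs,
        abs_of_nonneg hr0]
      have := (mem_ball_zero_iff.1 hw).le
      gcongr) (mem_ball_zero_iff.2 hr1)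
  have e1 : (fun w : ℂ => ∑' i, b i * w ^ e i) =ᶠ[𝓝 u] g := by
    filter_upwards [Metric.isOpen_ball.mem_nhds (mem_ball_zero_iff.2 hu)] with w hw
    exact (h w (mem_ball_zero_iff.1 hw)).tsum_eq
  rw [e1.deriv_eq] at key
  have e2 : (fun i => deriv (fun w => b i * w ^ e i) u) = fun i => b i * e i * u ^ (e i - 1) := by
    ext i
    rw [((hasDerivAt_pow (e i) u).const_mul (b i)).deriv, mul_assoc]
  rwa [e2] at key

/-- double power series representation -/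
def Rep {ι : Type*} (R S : ℝ) (c : ι → ℂ) (e e' : ι → ℕ) (f : ℂ → ℂ → ℂ) : Prop :=
  ∀ u v : ℂ, ‖u‖ < R → ‖v‖ < S → HasSum (fun i => c i * u ^ e i * v ^ e' i) (f u v)

theorem Rep.d1 {ι : Type*} {R S : ℝ} {c : ι → ℂ} {e e' : ι → ℕ} {f : ℂ → ℂ → ℂ}
    (h : Rep R S c e e' f) : Rep R S (fun i => c i * e i) (fun i => e i - 1) e' (d1 f) := by
  intro u v hu hv
  have := hasSum_der (fun i => c i * v ^ e' i) e (fun x => f x v) R (fun x hx => by
    simpa only [mul_right_comm] using h x v hx hv) hu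
  have e2 : (fun i => c i * v ^ e' i * e i * u ^ (e i - 1)) =
      fun i => c i * e i * u ^ (e i - 1) * v ^ e' i := by ext i; ring
  rwa [e2] at this

theorem Rep.d2 {ι : Type*} {R S : ℝ} {c : ι → ℂ} {e e' : ι → ℕ} {f : ℂ → ℂ → ℂ}
    (h : Rep R S c e e' f) : Rep R S (fun i => c i * e' i) e (fun i => e' i - 1) (d2 f) := by
  intro u v hu hv
  have := hasSum_der (fun i => c i * u ^ e i) e' (fun y => f u y) S (fun y hy => h u y hu hy) hv
  have e2 : (fun i => c i * u ^ e i * e' i * v ^ (e' i - 1)) =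
      fun i => c i * e' i * u ^ e i * v ^ (e' i - 1) := by ext i; ring
  rwa [e2] at this

theorem bern_eq (n : ℕ) (f : ℂ → ℂ → ℂ) (u v : ℂ) :
    bern n f u v = T u v n fun k j => f (k / n) (j / n) := by
  refine sum_congr rfl fun k hk => sum_congr rfl fun j hj => ?_
  have h1 : k ≤ n := Nat.lt_succ_iff.1 (mem_range.1 hk)
  have h2 : j ≤ n - k := by have := mem_range.1 hj; omega
  have : ∀ m : ℕ, (m.factorial : ℂ) ≠ 0 := fun m => Nat.cast_ne_zero.2 m.factorial_ne_zero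
  rw [Nat.cast_choose ℂ h1, Nat.cast_choose ℂ h2]
  have a1 := this k
  have a2 := this j
  have a3 := this (n - k)
  have a4 := this (n - k - j)
  field_simp

theorem second (u : ℂ) (r : ℕ) :
    u * (r * ((r - 1 : ℕ) : ℂ) * u ^ (r - 1 - 1)) = ((r : ℂ) - 1) * D u r := by
  cases r with
  | zero => simp [D]
  | succ r =>
    have := mul_D u r
    simp only [D, Nat.add_sub_cancel] at this ⊢
    push_cast
    linear_combination (r + 1) * this

theorem poly_geom {q : ℝ} (h0 : 0 < q) (h1 : q < 1) :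
    ∃ B, ∀ r : ℕ, ((r : ℝ) + 1) ^ 4 * q ^ r ≤ B := by
  have := (tendsto_pow_const_mul_const_pow_of_abs_lt_one 4
    (show |q| < 1 by rwa [abs_of_pos h0])).bddAbove_range
  obtain ⟨B, hB⟩ := this
  refine ⟨B / q, fun r => ?_⟩
  have h2 := hB ⟨r + 1, rfl⟩
  rw [le_div_iff₀ h0]
  push_cast at h2
  calc _ = ((r : ℝ) + 1) ^ 4 * q ^ (r + 1) := by ring
    _ ≤ B := h2

theorem result (R S : ℝ) (hR : 1 < R) (hS : 1 < S) (a : ℕ × ℕ → ℂ) (f : ℂ → ℂ → ℂ)
    (hf : ∀ u v : ℂ, ‖u‖ < R → ‖v‖ < S → HasSum (fun p : ℕ × ℕ => a p * u ^ p.1 * v ^ p.2) (f u v))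
    (ρ σ : ℝ) (hρ : 1 ≤ ρ) (hρR : ρ < R) (hσ : 1 ≤ σ) (hσS : σ < S) :
    ∃ C : ℝ, ∀ n : ℕ, 1 ≤ n → ∀ u v : ℂ, ‖u‖ ≤ ρ → ‖v‖ ≤ σ → ‖rem n f u v‖ ≤ C / (n : ℝ) ^ 2 := by
  obtain ⟨R', hR1, hR2⟩ := exists_between hρR
  obtain ⟨S', hS1, hS2⟩ := exists_between hσS
  have hR0 : 0 < R' := by linarith
  have hS0 : 0 < S' := by linarith
  obtain ⟨B1, hB1⟩ := poly_geom (q := ρ / R') (by positivity) ((div_lt_one hR0).2 hR1)
  obtain ⟨B2, hB2⟩ := poly_geom (q := σ / S') (by positivity) ((div_lt_one hS0).2 hS1)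
  have hs : Summable fun p : ℕ × ℕ => ‖a p‖ * R' ^ p.1 * S' ^ p.2 := by
    have := (hf R' S' (by rw [Complex.norm_real, Real.norm_eq_abs, abs_of_pos hR0]; exact hR2)
      (by rw [Complex.norm_real, Real.norm_eq_abs, abs_of_pos hS0]; exact hS2)).summable.norm
    simpa [abs_of_pos hR0, abs_of_pos hS0] using this
  refine ⟨6 * B1 * B2 * ∑' p : ℕ × ℕ, ‖a p‖ * R' ^ p.1 * S' ^ p.2, fun n hn u v hu hv => ?_⟩
  have hn0 : (0 : ℝ) < n := by exact_mod_cast hn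
  have hnc : (n : ℂ) ≠ 0 := by exact_mod_cast hn0.ne'
  have h0 : Rep R S a Prod.fst Prod.snd f := hf
  have hu' : ‖u‖ < R := lt_of_le_of_lt hu hρR
  have hv' : ‖v‖ < S := lt_of_le_of_lt hv hσS
  have hb : HasSum (fun p : ℕ × ℕ => a p * (F u v n p.1 p.2 0 0 / n ^ (p.1 + p.2)))
      (bern n f u v) := by
    rw [bern_eq]
    have hq : ∀ k : ℕ, k ≤ n → ‖(k : ℂ) / n‖ ≤ 1 := by
      intro k hk
      rw [norm_div, Complex.norm_natCast, Complex.norm_natCast, div_le_one hn0]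
      exact_mod_cast hk
    have := hasSum_sum (s := range (n + 1)) fun k hk => hasSum_sum (s := range (n + 1 - k))
      fun j hj => (hf (k / n) (j / n)
        (lt_of_le_of_lt (hq k (Nat.lt_succ_iff.1 (mem_range.1 hk))) hR)
        (lt_of_le_of_lt (hq j (by have := mem_range.1 hj; omega)) hS)).mul_left
        ((n.choose k : ℂ) * ((n - k).choose j : ℂ) * u ^ k * v ^ j * (1 - u - v) ^ (n - k - j))
    have e : (fun p : ℕ × ℕ => a p * (F u v n p.1 p.2 0 0 / n ^ (p.1 + p.2))) =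
        fun p : ℕ × ℕ => ∑ k ∈ range (n + 1), ∑ j ∈ range (n + 1 - k),
          (n.choose k : ℂ) * ((n - k).choose j : ℂ) * u ^ k * v ^ j * (1 - u - v) ^ (n - k - j) *
            (a p * ((k : ℂ) / n) ^ p.1 * ((j : ℂ) / n) ^ p.2) := by
      ext p
      simp only [F, T, sum_div, mul_sum]
      refine sum_congr rfl fun k _ => sum_congr rfl fun j _ => ?_
      simp only [Nat.cast_zero, add_zero, div_pow, pow_add]
      field_simp
    rw [e]
    exact this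
  have hall := (hb.sub (hf u v hu' hv')).sub (((((h0.d1.d1 u v hu' hv').mul_left
    (u * (1 - u))).sub ((h0.d1.d2 u v hu' hv').mul_left (2 * u * v))).add
    ((h0.d2.d2 u v hu' hv').mul_left (v * (1 - v)))).mul_left (1 / (2 * (n : ℂ))))
  have hbound := (hs.hasSum.mul_left (6 * B1 * B2)).div_const ((n : ℝ) ^ 2)
  refine hall.norm_le_of_bounded hbound ?_
  rintro ⟨r, s⟩
  have hm := main (M := (r : ℝ) + s + 1) hρ hσ hu hv n r s n 0 0 rfl (by simp)
  have e1 := second u r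
  have e2 := second v s
  have e3 := mul_D u r
  have e4 := mul_D v s
  have e : a (r, s) * (F u v n r s 0 0 / n ^ (r + s)) - a (r, s) * u ^ r * v ^ s -
      1 / (2 * (n : ℂ)) * (u * (1 - u) * (a (r, s) * r * ((r - 1 : ℕ) : ℂ) * u ^ (r - 1 - 1) * v ^ s) -
        2 * u * v * (a (r, s) * r * s * u ^ (r - 1) * v ^ (s - 1)) +
        v * (1 - v) * (a (r, s) * s * ((s - 1 : ℕ) : ℂ) * u ^ r * v ^ (s - 1 - 1))) =
      a (r, s) * (n ^ 2 * F u v n r s 0 0 -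
        n ^ (r + s) * (n ^ 2 * (u ^ r * v ^ s) + n * Y u v r s 0 0)) / (n ^ 2 * n ^ (r + s)) := by
    have e5 : u * (1 - u) * (a (r, s) * r * ((r - 1 : ℕ) : ℂ) * u ^ (r - 1 - 1) * v ^ s) -
        2 * u * v * (a (r, s) * r * s * u ^ (r - 1) * v ^ (s - 1)) +
        v * (1 - v) * (a (r, s) * s * ((s - 1 : ℕ) : ℂ) * u ^ r * v ^ (s - 1 - 1)) =
        2 * a (r, s) * Y u v r s 0 0 := by
      have e6 : u * v * (r * s * u ^ (r - 1) * v ^ (s - 1)) = r * s * (u ^ r * v ^ s) := by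
        have : u * v * (r * s * u ^ (r - 1) * v ^ (s - 1)) = (u * D u r) * (v * D v s) := by
          simp only [D]; ring
        rw [this, e3, e4]; ring
      simp only [Y, Nat.cast_zero, add_zero]
      linear_combination (a (r, s) * (1 - u) * v ^ s) * e1 + (a (r, s) * (1 - v) * u ^ r) * e2 -
        2 * a (r, s) * e6 - (a (r, s) * ((r : ℂ) - 1) * v ^ s) * e3 -
        (a (r, s) * ((s : ℂ) - 1) * u ^ r) * e4
    rw [e5]
    field_simp
    ring
  change ‖_‖ ≤ 6 * B1 * B2 * (‖a (r, s)‖ * R' ^ r * S' ^ s) / (n : ℝ) ^ 2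
  beta_reduce
  rw [e, norm_div, norm_mul, norm_mul, norm_pow, norm_pow, Complex.norm_natCast,
    div_le_div_iff₀ (by positivity) (by positivity)]
  have z1 : (0 : ℝ) ≤ r := Nat.cast_nonneg _
  have z2 : (0 : ℝ) ≤ s := Nat.cast_nonneg _
  have b1 : ((r : ℝ) + 1) ^ 4 * ρ ^ r ≤ B1 * R' ^ r := by
    have := hB1 r
    rwa [div_pow, ← mul_div_assoc, div_le_iff₀ (by positivity)] at this
  have b2 : ((s : ℝ) + 1) ^ 4 * σ ^ s ≤ B2 * S' ^ s := by
    have := hB2 s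
    rwa [div_pow, ← mul_div_assoc, div_le_iff₀ (by positivity)] at this
  have b3 : ((r : ℝ) + s + 1) ^ 3 * (r + s) ≤ ((r : ℝ) + 1) ^ 4 * ((s : ℝ) + 1) ^ 4 := by
    have c1 : (r : ℝ) + s + 1 ≤ (r + 1) * (s + 1) := by nlinarith
    calc ((r : ℝ) + s + 1) ^ 3 * (r + s) ≤ ((r : ℝ) + s + 1) ^ 3 * (r + s + 1) := by
          exact mul_le_mul_of_nonneg_left (by linarith) (by positivity)
      _ = ((r : ℝ) + s + 1) ^ 4 := by ring
      _ ≤ (((r : ℝ) + 1) * (s + 1)) ^ 4 := by gcongr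
      _ = _ := by ring
  have b4 : ((r : ℝ) + s + 1) ^ 3 * (r + s) * (ρ ^ r * σ ^ s) ≤ (B1 * R' ^ r) * (B2 * S' ^ s) := by
    calc _ ≤ ((r : ℝ) + 1) ^ 4 * ((s : ℝ) + 1) ^ 4 * (ρ ^ r * σ ^ s) := by gcongr
      _ = (((r : ℝ) + 1) ^ 4 * ρ ^ r) * (((s : ℝ) + 1) ^ 4 * σ ^ s) := by ring
      _ ≤ _ := mul_le_mul b1 b2 (by positivity) (le_trans (by positivity) b1)
  calc _ ≤ ‖a (r, s)‖ * (6 * ((r : ℝ) + s + 1) ^ 3 * (r + s) * n ^ (r + s) * (ρ ^ r * σ ^ s)) *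
        (n : ℝ) ^ 2 := by gcongr
    _ = 6 * ‖a (r, s)‖ * ((n : ℝ) ^ 2 * n ^ (r + s)) *
        (((r : ℝ) + s + 1) ^ 3 * (r + s) * (ρ ^ r * σ ^ s)) := by ring
    _ ≤ 6 * ‖a (r, s)‖ * ((n : ℝ) ^ 2 * n ^ (r + s)) * ((B1 * R' ^ r) * (B2 * S' ^ s)) := by gcongr
    _ = _ := by ring

end Pool.Agent.Results.MP_814f17_an.Yes
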